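import Pool.Agent.H92.Pat1

open MeasureTheory Filter Set Pool.Agent.H92.Pat

namespace Pool.Agent.Results.MP_701998_an.NoDecay

/-- There is a compact perfect set of reals containing all finite patterns that supports no
nonzero finite measure with decaying Fourier transform. -/
theorem result : ∃ E : Set ℝ, Perfect E ∧ IsCompact E ∧
    (∀ F : Finset ℝ, ∃ a b : ℝ, b ≠ 0 ∧ ∀ x ∈ F, a + b * x ∈ E) ∧
    ∀ μ : Measure ℝ, IsFiniteMeasure μ → μ ≠ 0 → μ.support ⊆ E →
      ¬ Tendsto (fun ξ : ℝ => ∫ x : ℝ, Complex.exp (-2 * Real.pi * Complex.I * x * ξ) ∂μ)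
        (cocompact ℝ) (nhds 0) := by
  let P : ℕ → Set ℝ := fun j => (fun y => (1 + y) * (1 / 4) ^ (j + 1)) '' K (j + 4)
  have pb : ∀ j, ∀ x ∈ P j, (1 / 4) ^ (j + 1) ≤ x ∧ x ≤ 2 * (1 / 4) ^ (j + 1) := by
    rintro j _ ⟨y, hy, rfl⟩
    have := K_sub hy
    have p : (0 : ℝ) < (1 / 4) ^ (j + 1) := by positivity
    constructor <;> nlinarith [this.1, this.2]
  have an : ∀ {i j : ℕ}, i ≤ j → (1 / 4 : ℝ) ^ j ≤ (1 / 4) ^ i := fun h =>
    pow_le_pow_of_le_one (by norm_num) (by norm_num) h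
  have pos : ∀ j : ℕ, (0 : ℝ) < (1 / 4) ^ j := fun j => by positivity
  have pb' : ∀ m j, m ≤ j → ∀ x ∈ P j, 0 < x ∧ x ≤ (1 / 4) ^ m / 2 := fun m j h x hx => by
    have := pb j x hx
    have := an h
    constructor
    · linarith [pos (j + 1)]
    · rw [pow_succ] at *; linarith
  have cl : IsClosed ({0} ∪ ⋃ j, P j) := by
    have : {0} ∪ ⋃ j, P j = ⋂ m, (⋃ j ∈ Finset.range m, P j) ∪ Icc 0 ((1 / 4) ^ m) := by
      ext x
      simp only [mem_union, mem_iUnion, mem_iInter, mem_singleton_iff, Finset.mem_range, mem_Icc]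
      constructor
      · rintro (rfl | ⟨j, hj⟩) m
        · exact Or.inr ⟨le_rfl, (pos m).le⟩
        rcases lt_or_ge j m with h | h
        · exact Or.inl ⟨j, h, hj⟩
        · exact Or.inr ⟨(pb' m j h x hj).1.le, by linarith [(pb' m j h x hj).2, pos m]⟩
      · intro h
        by_contra hc
        push Not at hc
        have h' := fun m => (h m).resolve_left fun ⟨j, _, hj⟩ => hc.2 j hj
        obtain ⟨m, hm⟩ := exists_pow_lt_of_lt_one ((h' 0).1.lt_of_ne' hc.1)
          (show (1 / 4 : ℝ) < 1 by norm_num)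
        exact hm.not_ge (h' m).2
    rw [this]
    exact isClosed_iInter fun m => (isClosed_biUnion_finset fun j _ =>
      (K_compact.image (by fun_prop)).isClosed).union isClosed_Icc
  have sub : ∀ x ∈ ({0} ∪ ⋃ j, P j : Set ℝ), 0 ≤ x ∧ x ≤ 1 / 2 := by
    rintro x (rfl | h)
    · norm_num
    · obtain ⟨j, hj⟩ := mem_iUnion.mp h
      simpa using (pb' 0 j j.zero_le x hj).imp_left le_of_lt
  have pat : ∀ (F : Finset ℝ) j, 3 * F.card ≤ j → ∃ a b : ℝ, b ≠ 0 ∧ ∀ x ∈ F, a + b * x ∈ P j :=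
    fun F j h => by
      obtain ⟨a, b, b0, hab⟩ := K_pat (B := j + 4) F (by omega)
      exact ⟨(1 + a) * (1 / 4) ^ (j + 1), b * (1 / 4) ^ (j + 1), by positivity,
        fun x hx => ⟨_, hab x hx, by ring⟩⟩
  refine ⟨{0} ∪ ⋃ j, P j, ⟨cl, fun x hx => accPt_iff_nhds.mpr fun U hU => ?_⟩,
    isCompact_Icc.of_isClosed_subset cl sub, fun F => ?_, fun μ _ h0 hs h => ?_⟩
  · obtain ⟨ε, hε, hU⟩ := Metric.mem_nhds_iff.mp hU
    rcases hx with rfl | hx
    · obtain ⟨m, hm⟩ := exists_pow_lt_of_lt_one hε (show (1 / 4 : ℝ) < 1 by norm_num)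
      obtain ⟨a, b, -, hab⟩ := pat {0} (m + 3) (by simp)
      have h1 := hab 0 (by simp)
      have h2 := pb' m _ (by omega) _ h1
      refine ⟨_, ⟨hU ?_, Or.inr (mem_iUnion.mpr ⟨_, h1⟩)⟩, h2.1.ne'⟩
      rw [mem_ball_zero_iff, Real.norm_of_nonneg h2.1.le]
      linarith [pos m]
    · obtain ⟨j, y, hy, rfl⟩ := mem_iUnion.mp hx
      obtain ⟨z, hz, ne, d⟩ := K_acc (by omega) hy hε
      refine ⟨_, ⟨hU ?_, Or.inr (mem_iUnion.mpr ⟨j, z, hz, rfl⟩)⟩, fun e => ne (by
        simpa using mul_right_cancel₀ (pos _).ne' e)⟩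
      rw [Metric.mem_ball, Real.dist_eq, ← sub_mul, abs_mul, abs_of_pos (pos _),
        add_sub_add_left_eq_sub]
      have := an (j + 1).zero_le
      nlinarith [abs_nonneg (z - y)]
  · obtain ⟨a, b, b0, hab⟩ := pat F _ le_rfl
    exact ⟨a, b, b0, fun x hx => Or.inr (mem_iUnion.mpr ⟨_, hab x hx⟩)⟩
  have ae : ∀ᵐ x ∂μ, x ∈ ({0} ∪ ⋃ j, P j : Set ℝ) := mem_of_superset μ.support_mem_ae hs
  have nr : ∀ (j : ℕ), ∀ x ∈ ({0} ∪ ⋃ j, P j : Set ℝ),
      tent (3 / 2 * (1 / 4) ^ (j + 1)) (3 / 4 * (1 / 4) ^ (j + 1)) x =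
        max 0 (3 / 4 * (1 / 4) ^ (j + 1) - |x - 3 / 2 * (1 / 4) ^ (j + 1)|) := fun j x hx => by
    have := sub x hx
    have h1 := an (show 1 ≤ j + 1 by omega)
    rw [tent, ← AddCircle.coe_sub, (AddCircle.norm_coe_eq_abs_iff _ one_ne_zero).mpr]
    rw [abs_one, abs_le]
    constructor <;> linarith [pos (j + 1)]
  have nl : ∀ j, ∀ᵐ x ∂μ, x ∉ P j := fun j => by
    have B0 : (0 : ℝ) < (j + 4 : ℕ) := by positivity
    have := null μ h (l := fun n => 4 ^ (j + 1) * ((j + 4 : ℕ) : ℝ) ^ n)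
      ((tendsto_pow_atTop_atTop_of_one_lt (by norm_cast; omega)).const_mul_atTop (by positivity))
      (m := 1 / (2 * (j + 4 : ℕ))) (r := 1 / (2 * (j + 4 : ℕ)))
      (m' := 3 / 2 * (1 / 4) ^ (j + 1)) (r' := 3 / 4 * (1 / 4) ^ (j + 1)) (by positivity)
      fun n => by
        filter_upwards [ae] with x hx
        by_cases hj : x ∈ P j
        · obtain ⟨y, hy, rfl⟩ := hj
          obtain ⟨k, k1, k2⟩ := K_gap (by omega) hy n
          refine mul_eq_zero_of_left (max_eq_left (sub_nonpos.mpr ?_)) _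
          set B : ℝ := ((j + 4 : ℕ) : ℝ) with hB
          have e : (4 : ℝ) ^ (j + 1) * B ^ n * ((1 + y) * (1 / 4) ^ (j + 1)) - 1 / (2 * B) =
              (B ^ n * y - k - 1 / (2 * B)) + ((j + 4 : ℕ) ^ n + k : ℤ) := by
            rw [Int.cast_add, Int.cast_pow, Int.cast_natCast, one_div_pow]; field_simp; ring
          have e2 : 1 / B = 2 * (1 / (2 * B)) := by field_simp
          have e3 : 0 < 1 / (2 * B) := by positivity
          rw [← AddCircle.coe_sub, UnitAddCircle.norm_eq, abs_sub_round_eq_min, e,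
            Int.fract_add_intCast, Int.fract_eq_self.mpr ⟨by linarith, by linarith⟩]
          exact le_min (by linarith) (by linarith)
        · refine mul_eq_zero_of_right _ ?_
          rw [nr j x hx]
          refine max_eq_left (sub_nonpos.mpr (le_abs.mpr ?_))
          rcases hx with rfl | hx
          · exact Or.inr (by linarith [pos (j + 1)])
          obtain ⟨i, hi⟩ := mem_iUnion.mp hx
          rcases lt_trichotomy i j with c | rfl | c
          · have := an (show i + 1 ≤ j from c)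
            have := (pb i x hi).1
            rw [pow_succ _ j]
            exact Or.inl (by linarith [pos j])
          · exact (hj hi).elim
          · exact Or.inr (by linarith [(pb' (j + 1) i c x hi).2, pos (j + 1)])
    filter_upwards [this, ae] with x h1 h2 h3
    rw [nr j x h2, max_eq_left_iff, sub_nonpos, le_abs] at h1
    rcases h1 with h1 | h1 <;> linarith [pb j x h3, pos (j + 1)]
  have z : ∀ᵐ x ∂μ, x = 0 := by
    filter_upwards [ae, ae_all_iff.mpr nl] with x h1 h2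
    exact h1.resolve_right fun h => let ⟨j, hj⟩ := mem_iUnion.mp h; h2 j hj
  have e : ∀ ξ : ℝ, ∫ x : ℝ, Complex.exp (-2 * Real.pi * Complex.I * x * ξ) ∂μ = μ.real univ :=
    fun ξ => by
      rw [integral_congr_ae (g := fun _ => 1) (by filter_upwards [z] with x hx; simp [hx])]
      simp
  simp only [e] at h
  have h2 := tendsto_nhds_unique tendsto_const_nhds h
  have : NeZero μ := ⟨h0⟩
  exact (measureReal_univ_pos (μ := μ)).ne' (by exact_mod_cast h2)

end Pool.Agent.Results.MP_701998_an.NoDecay
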